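import Mathlib
import Pool.Agent.N546.PN.Stm

/-!
Part TAIL of project PN (helper546): on a line, few families in a residue class modulo `M` vanish
modulo a prime not dividing `M`. Author: helper301.
-/

set_option autoImplicit false
set_option linter.all false

namespace Pool.Agent.N301.PN

open Finset Pool.Agent.N546.PN

/-- the number of elements of an interval in a residue class -/
lemma cls (H q : ℕ) (hq : 1 ≤ q) (x0 : ℤ) :
    ((#{x ∈ Icc (-(H : ℤ)) H | (q : ℤ) ∣ x - x0} : ℕ) : ℝ) ≤ ((2 * H + 1 : ℕ) : ℝ) / q + 1 := by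
  classical
  have hq0 : (0 : ℤ) < q := by exact_mod_cast hq
  have h1 : #{x ∈ Icc (-(H : ℤ)) H | (q : ℤ) ∣ x - x0} ≤ #(range (2 * H / q + 1)) := by
    refine card_le_card_of_injOn (fun x => ((x + H) / q).toNat) ?_ ?_
    · intro x hx
      simp only [coe_filter, Set.mem_setOf_eq, mem_Icc] at hx
      have h2 : (x + H) / q ≤ (2 * H : ℤ) / q := Int.ediv_le_ediv hq0 (by omega)
      have h3 : 0 ≤ (x + H) / q := Int.ediv_nonneg (by omega) hq0.le
      have h4 : ((2 * H / q : ℕ) : ℤ) = (2 * H : ℤ) / q := by push_cast; rfl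
      rw [coe_range, Set.mem_Iio]
      change ((x + H) / q).toNat < _
      omega
    · intro x hx y hy hxy
      simp only [coe_filter, Set.mem_setOf_eq, mem_Icc] at hx hy
      have h3 : 0 ≤ (x + H) / q := Int.ediv_nonneg (by omega) hq0.le
      have h3' : 0 ≤ (y + H) / q := Int.ediv_nonneg (by omega) hq0.le
      have h4 : (x + H) / q = (y + H) / q := by
        have : ((x + H) / q).toNat = ((y + H) / q).toNat := hxy
        omega
      have h5 : (q : ℤ) ∣ (x + H) - (y + H) := by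
        have := dvd_sub hx.2 hy.2
        have e : (x + H) - (y + H) = x - x0 - (y - x0) := by ring
        rw [e]
        exact this
      have h7 : (x + H) % q = (y + H) % q :=
        Int.emod_eq_emod_iff_emod_sub_eq_zero.2 (Int.emod_eq_zero_of_dvd h5)
      have h8 := Int.emod_add_mul_ediv (x + H) q
      have h9 := Int.emod_add_mul_ediv (y + H) q
      rw [h4, h7] at h8
      linarith
  rw [card_range] at h1
  have h2 : ((2 * H / q : ℕ) : ℝ) ≤ ((2 * H : ℕ) : ℝ) / q := Nat.cast_div_le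
  have h3 : ((2 * H : ℕ) : ℝ) / q ≤ ((2 * H + 1 : ℕ) : ℝ) / q := by
    apply div_le_div_of_nonneg_right _ (Nat.cast_nonneg _)
    push_cast
    linarith
  have h4 : ((#{x ∈ Icc (-(H : ℤ)) H | (q : ℤ) ∣ x - x0} : ℕ) : ℝ) ≤ ((2 * H / q + 1 : ℕ) : ℝ) := by
    exact_mod_cast h1
  rw [Nat.cast_add, Nat.cast_one] at h4
  linarith

section fib

variable {σ : Type} [Fintype σ] [DecidableEq σ]

/-- counting by the fibres -/
lemma fib (A B : σ) (hAB : A ≠ B) (S : σ → Finset ℤ) (E : Finset (σ → ℤ))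
    (hE : ∀ c ∈ E, ∀ q, c q ∈ S q) (K R : ℝ) (hR : 0 ≤ R) (hK0 : 0 ≤ K)
    (hS : ∀ q, ((#(S q) : ℕ) : ℝ) ≤ R)
    (hK : ∀ G ⊆ E, (∀ c ∈ G, ∀ d ∈ G, ∀ q, q ≠ A → q ≠ B → c q = d q) → ((#G : ℕ) : ℝ) ≤ K) :
    ((#E : ℕ) : ℝ) * R ^ 2 ≤ K * R ^ Fintype.card σ := by
  classical
  let f : (σ → ℤ) → (σ → ℤ) := fun c q => if q = A ∨ q = B then 0 else c q
  let t : Finset (σ → ℤ) := Fintype.piFinset (fun q => if q = A ∨ q = B then {0} else S q)
  have hf : Set.MapsTo f (E : Set (σ → ℤ)) t := by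
    intro c hc
    rw [mem_coe, Fintype.mem_piFinset]
    intro q
    change (if q = A ∨ q = B then 0 else c q) ∈ _
    split_ifs
    · exact mem_singleton_self _
    · exact hE c hc q
  have h1 : ((#E : ℕ) : ℝ) = ∑ b ∈ t, ((#{a ∈ E | f a = b} : ℕ) : ℝ) := by
    rw [card_eq_sum_card_fiberwise hf, Nat.cast_sum]
  have h2 : ((#E : ℕ) : ℝ) ≤ #t * K := by
    rw [h1]
    refine (sum_le_sum (fun b _ => hK {a ∈ E | f a = b} (filter_subset _ _) ?_)).trans ?_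
    · intro c hc d hd q hqA hqB
      have h3 : f c q = f d q := by
        rw [(mem_filter.1 hc).2, (mem_filter.1 hd).2]
      change (if q = A ∨ q = B then 0 else c q) = (if q = A ∨ q = B then 0 else d q) at h3
      rwa [if_neg (by tauto), if_neg (by tauto)] at h3
    · rw [sum_const, nsmul_eq_mul]
  have h3 : ((#t : ℕ) : ℝ) * R ^ 2 ≤ R ^ Fintype.card σ := by
    have e1 : #t = ∏ q, #(if q = A ∨ q = B then ({0} : Finset ℤ) else S q) :=
      Fintype.card_piFinset _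
    have e2 : ((#t : ℕ) : ℝ) * R ^ 2 = (∏ q, ((#(if q = A ∨ q = B then ({0} : Finset ℤ) else
        S q) : ℕ) : ℝ)) * ∏ q, (if q = A ∨ q = B then R else 1) := by
      rw [e1, Nat.cast_prod]
      congr 1
      rw [prod_ite, prod_const_one, mul_one, prod_const]
      congr 1
      have : (univ.filter fun q : σ => q = A ∨ q = B) = {A, B} := by
        ext q
        simp
      rw [this, card_pair hAB]
    rw [e2, ← prod_mul_distrib]
    have e3 : R ^ Fintype.card σ = ∏ q : σ, R := by rw [prod_const, card_univ]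
    rw [e3]
    refine prod_le_prod (fun q _ => ?_) (fun q _ => ?_)
    · split_ifs <;> positivity
    · split_ifs with h
      · rw [card_singleton, Nat.cast_one, one_mul]
      · rw [mul_one]
        exact hS q
  calc ((#E : ℕ) : ℝ) * R ^ 2 ≤ (#t * K) * R ^ 2 := by
        apply mul_le_mul_of_nonneg_right h2 (by positivity)
    _ = K * (#t * R ^ 2) := by ring
    _ ≤ K * R ^ Fintype.card σ := mul_le_mul_of_nonneg_left h3 hK0

end fib

section abs

variable {σ : Type} [Fintype σ] [DecidableEq σ]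

/-- a small prime -/
lemma small (M p H : ℕ) (hM : 1 ≤ M) (hp : p.Prime) (hpM : ¬ p ∣ M) (hMp : M * p ≤ 2 * H + 1)
    (f0 f1 : (σ → ℤ) → ℤ) (A B : σ) (hAB : A ≠ B) (α β δ : ℤ)
    (hf1 : ∀ c d : σ → ℤ, (∀ q, q ≠ A → q ≠ B → c q = d q) → f1 c - f1 d = β * (c B - d B))
    (hf0 : ∀ c d : σ → ℤ, (∀ q, q ≠ A → q ≠ B → c q = d q) →
      f0 c - f0 d = α * (c A - d A) + δ * (c B - d B))
    (hα : ¬ (p : ℤ) ∣ α) (hβ : ¬ (p : ℤ) ∣ β) (γ : σ → ℤ) (E : Finset (σ → ℤ))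
    (hE : ∀ c ∈ E, (∀ q, c q ∈ Icc (-(H : ℤ)) H) ∧ (∀ q, (M : ℤ) ∣ c q - γ q) ∧
      (p : ℤ) ∣ f0 c ∧ (p : ℤ) ∣ f1 c) :
    ((#E : ℕ) : ℝ) ≤ (2 * (((2 * H + 1 : ℕ) : ℝ) / M)) ^ Fintype.card σ * ((p : ℝ) ^ 2)⁻¹ := by
  classical
  obtain ⟨N, hN⟩ : ∃ N : ℝ, N = ((2 * H + 1 : ℕ) : ℝ) := ⟨_, rfl⟩
  rw [← hN]
  have hM0 : (0 : ℝ) < M := by exact_mod_cast hM
  have hp0 : (0 : ℝ) < p := by exact_mod_cast hp.pos
  have hN0 : 0 < N := by rw [hN]; positivity
  have hMpN : (M : ℝ) * p ≤ N := by rw [hN]; exact_mod_cast hMp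
  have hMN : (M : ℝ) ≤ N := by
    have h1 : M ≤ M * p := Nat.le_mul_of_pos_right _ hp.pos
    rw [hN]
    exact_mod_cast h1.trans hMp
  have hpp : Prime (p : ℤ) := Nat.prime_iff_prime_int.1 hp
  have hcop : IsCoprime (M : ℤ) (p : ℤ) :=
    Nat.isCoprime_iff_coprime.2 ((Nat.Prime.coprime_iff_not_dvd hp).2 hpM).symm
  have hR0 : 0 < 2 * (N / M) := by positivity
  have key := fib A B hAB (fun q => {x ∈ Icc (-(H : ℤ)) H | (M : ℤ) ∣ x - γ q}) E
    (fun c hc q => mem_filter.2 ⟨(hE c hc).1 q, (hE c hc).2.1 q⟩)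
    ((2 * (N / M) / p) ^ 2) (2 * (N / M)) hR0.le (by positivity)
    (fun q => by
      have h1 := cls H M hM (γ q)
      rw [← hN] at h1
      have h2 : 1 ≤ N / M := (one_le_div hM0).2 hMN
      linarith)
    (fun G hG hag => by
      rcases G.eq_empty_or_nonempty with rfl | ⟨d, hd⟩
      · rw [card_empty, Nat.cast_zero]
        positivity
      have hMp1 : 1 ≤ M * p := Nat.mul_pos hM hp.pos
      have hcard : #G ≤ #({x ∈ Icc (-(H : ℤ)) H | ((M * p : ℕ) : ℤ) ∣ x - d A} ×ˢ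
          {x ∈ Icc (-(H : ℤ)) H | ((M * p : ℕ) : ℤ) ∣ x - d B}) := by
        refine card_le_card_of_injOn (fun c => (c A, c B)) ?_ ?_
        · intro c hc
          obtain ⟨hc1, hc2, hc3, hc4⟩ := hE c (hG hc)
          obtain ⟨hd1, hd2, hd3, hd4⟩ := hE d (hG hd)
          have h1 := hf1 c d (hag c hc d hd)
          have h0 := hf0 c d (hag c hc d hd)
          have h2 : (p : ℤ) ∣ c B - d B := by
            have : (p : ℤ) ∣ β * (c B - d B) := by
              rw [← h1]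
              exact dvd_sub hc4 hd4
            exact (hpp.dvd_or_dvd this).resolve_left hβ
          have h3 : (p : ℤ) ∣ c A - d A := by
            have : (p : ℤ) ∣ α * (c A - d A) := by
              have e : α * (c A - d A) = (f0 c - f0 d) - δ * (c B - d B) := by
                rw [h0]; ring
              rw [e]
              exact dvd_sub (dvd_sub hc3 hd3) (dvd_mul_of_dvd_right h2 _)
            exact (hpp.dvd_or_dvd this).resolve_left hα
          have h4 : ∀ q, (M : ℤ) ∣ c q - d q := by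
            intro q
            have e : c q - d q = (c q - γ q) - (d q - γ q) := by ring
            rw [e]
            exact dvd_sub (hc2 q) (hd2 q)
          rw [mem_coe, mem_product, mem_filter, mem_filter]
          refine ⟨⟨hc1 A, ?_⟩, ⟨hc1 B, ?_⟩⟩
          · rw [Nat.cast_mul]
            exact hcop.mul_dvd (h4 A) h3
          · rw [Nat.cast_mul]
            exact hcop.mul_dvd (h4 B) h2
        · intro c hc c' hc' hcc
          have hcA : c A = c' A := congrArg Prod.fst hcc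
          have hcB : c B = c' B := congrArg Prod.snd hcc
          funext q
          by_cases hqA : q = A
          · rw [hqA, hcA]
          by_cases hqB : q = B
          · rw [hqB, hcB]
          exact hag c hc c' hc' q hqA hqB
      rw [card_product] at hcard
      have h5 := cls H (M * p) hMp1 (d A)
      have h6 := cls H (M * p) hMp1 (d B)
      rw [← hN] at h5 h6
      have h7 : N / ((M * p : ℕ) : ℝ) + 1 ≤ 2 * (N / M) / p := by
        have e : ((M * p : ℕ) : ℝ) = M * p := by push_cast; ring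
        have h8 : 1 ≤ N / (M * p) := (one_le_div (by positivity)).2 hMpN
        rw [e]
        have e2 : 2 * (N / M) / p = 2 * (N / (M * p)) := by field_simp
        rw [e2]
        linarith
      have h9 : ((#G : ℕ) : ℝ) ≤
          ((#{x ∈ Icc (-(H : ℤ)) H | ((M * p : ℕ) : ℤ) ∣ x - d A} : ℕ) : ℝ) *
          ((#{x ∈ Icc (-(H : ℤ)) H | ((M * p : ℕ) : ℤ) ∣ x - d B} : ℕ) : ℝ) := by
        exact_mod_cast hcard
      refine h9.trans ?_
      rw [pow_two]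
      exact mul_le_mul (h5.trans h7) (h6.trans h7) (Nat.cast_nonneg _) (by positivity))
  have e : ((2 * (N / M) / p) ^ 2) * (2 * (N / M)) ^ Fintype.card σ =
      ((2 * (N / M)) ^ Fintype.card σ * ((p : ℝ) ^ 2)⁻¹) * (2 * (N / M)) ^ 2 := by
    field_simp
  rw [e] at key
  exact le_of_mul_le_mul_right key (by positivity)

/-- the large primes -/
lemma big (M H Cb : ℕ) (hM : 1 ≤ M) (f0 f1 : (σ → ℤ) → ℤ) (A B : σ) (hAB : A ≠ B) (α β δ : ℤ)
    (hf1 : ∀ c d : σ → ℤ, (∀ q, q ≠ A → q ≠ B → c q = d q) → f1 c - f1 d = β * (c B - d B))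
    (hf0 : ∀ c d : σ → ℤ, (∀ q, q ≠ A → q ≠ B → c q = d q) →
      f0 c - f0 d = α * (c A - d A) + δ * (c B - d B))
    (hα : α ≠ 0) (hβ : β ≠ 0)
    (hb : ∀ c : σ → ℤ, (∀ q, |c q| ≤ H) → |f0 c| ≤ Cb * H ∧ |f1 c| ≤ Cb * H)
    (E : Finset (σ → ℤ))
    (hE : ∀ c ∈ E, (∀ q, c q ∈ Icc (-(H : ℤ)) H) ∧ ∃ p : ℕ, p.Prime ∧ 2 * H + 1 < M * p ∧
      (p : ℤ) ∣ f0 c ∧ (p : ℤ) ∣ f1 c) :
    ((#E : ℕ) : ℝ) * ((2 * H + 1 : ℕ) : ℝ) ^ 2 ≤
      (((Cb * H + 1) * ((2 * (Cb * M) + 1) * (2 * (Cb * M) + 1)) : ℕ) : ℝ) *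
        ((2 * H + 1 : ℕ) : ℝ) ^ Fintype.card σ := by
  classical
  refine fib A B hAB (fun _ => Icc (-(H : ℤ)) H) E (fun c hc q => (hE c hc).1 q) _ _
    (Nat.cast_nonneg _) (Nat.cast_nonneg _) (fun q => ?_) (fun G hG hag => ?_)
  · have h1 : #(Icc (-(H : ℤ)) H) = 2 * H + 1 := by
      rw [Int.card_Icc]
      omega
    rw [h1]
  · let T : Finset (ℤ × ℤ) := (range (Cb * H + 1) ×ˢ (Icc (-((Cb * M : ℕ) : ℤ)) ((Cb * M : ℕ) : ℤ) ×ˢ
      Icc (-((Cb * M : ℕ) : ℤ)) ((Cb * M : ℕ) : ℤ))).image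
        (fun z => ((z.1 : ℤ) * z.2.1, (z.1 : ℤ) * z.2.2))
    have hT : #T ≤ (Cb * H + 1) * ((2 * (Cb * M) + 1) * (2 * (Cb * M) + 1)) := by
      refine card_image_le.trans ?_
      rw [card_product, card_product, card_range, Int.card_Icc]
      have : (((Cb * M : ℕ) : ℤ) + 1 - -((Cb * M : ℕ) : ℤ)).toNat = 2 * (Cb * M) + 1 := by omega
      rw [this]
    have hGT : #G ≤ #T := by
      refine card_le_card_of_injOn (fun c => (f0 c, f1 c)) ?_ ?_
      · intro c hc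
        obtain ⟨hc1, p, hp, hMp, hp0, hp1⟩ := hE c (hG hc)
        obtain ⟨hb0, hb1⟩ := hb c (fun q => by
          have := mem_Icc.1 (hc1 q)
          exact abs_le.2 this)
        have hpz : (0 : ℤ) < p := by exact_mod_cast hp.pos
        rw [mem_coe, mem_image]
        obtain ⟨u0, hu0⟩ := hp0
        obtain ⟨u1, hu1⟩ := hp1
        by_cases hpH : p ≤ Cb * H
        · have hbd : ∀ u : ℤ, |(p : ℤ) * u| ≤ Cb * H → |u| ≤ ((Cb * M : ℕ) : ℤ) := by
            intro u hu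
            rw [abs_mul, abs_of_pos hpz] at hu
            have h1 : (H : ℤ) ≤ M * p := by
              have : H ≤ M * p := by omega
              exact_mod_cast this
            have h2 : (p : ℤ) * |u| ≤ p * (Cb * M) := by
              have h3 : (Cb : ℤ) * H ≤ Cb * (M * p) := mul_le_mul_of_nonneg_left h1 (by positivity)
              linarith
            push_cast
            exact le_of_mul_le_mul_left h2 hpz
          refine ⟨(p, (u0, u1)), ?_, ?_⟩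
          · rw [mem_product, mem_product, mem_range, mem_Icc, mem_Icc]
            refine ⟨by omega, abs_le.1 (hbd u0 (by rw [← hu0]; exact hb0)),
              abs_le.1 (hbd u1 (by rw [← hu1]; exact hb1))⟩
          · exact Prod.ext hu0.symm hu1.symm
        · have hbd : ∀ u : ℤ, |(p : ℤ) * u| ≤ Cb * H → u = 0 := by
            intro u hu
            by_contra hne
            rw [abs_mul, abs_of_pos hpz] at hu
            have h1 : 1 ≤ |u| := Int.one_le_abs hne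
            have h2 : ((Cb * H : ℕ) : ℤ) < p := by exact_mod_cast not_le.1 hpH
            push_cast at h2
            nlinarith
          have e0 := hbd u0 (by rw [← hu0]; exact hb0)
          have e1 := hbd u1 (by rw [← hu1]; exact hb1)
          have hz : (0 : ℤ) ∈ Icc (-((Cb * M : ℕ) : ℤ)) ((Cb * M : ℕ) : ℤ) :=
            mem_Icc.2 ⟨neg_nonpos.2 (Int.natCast_nonneg _), Int.natCast_nonneg _⟩
          refine ⟨(0, (0, 0)), mem_product.2 ⟨mem_range.2 (Nat.succ_pos _),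
            mem_product.2 ⟨hz, hz⟩⟩, ?_⟩
          rw [e0, mul_zero] at hu0
          rw [e1, mul_zero] at hu1
          refine Prod.ext ?_ ?_
          · change ((0 : ℕ) : ℤ) * 0 = f0 c
            rw [hu0, mul_zero]
          · change ((0 : ℕ) : ℤ) * 0 = f1 c
            rw [hu1, mul_zero]
      · intro c hc d hd hcd
        have h0 := hf0 c d (hag c hc d hd)
        have h1 := hf1 c d (hag c hc d hd)
        have e0 : f0 c = f0 d := congrArg Prod.fst hcd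
        have e1 : f1 c = f1 d := congrArg Prod.snd hcd
        rw [e1, sub_self] at h1
        have h2 : c B - d B = 0 := (mul_eq_zero.1 h1.symm).resolve_left hβ
        rw [e0, sub_self, h2, mul_zero, add_zero] at h0
        have h3 : c A - d A = 0 := (mul_eq_zero.1 h0.symm).resolve_left hα
        funext q
        by_cases hqA : q = A
        · rw [hqA]; linarith
        by_cases hqB : q = B
        · rw [hqB]; linarith
        exact hag c hc d hd q hqA hqB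
    exact_mod_cast hGT.trans hT

/-- the abstract statement -/
lemma absT (P M : ℕ) (hP : 1 ≤ P) (hM : 1 ≤ M) (hPM : ∀ p : ℕ, p.Prime → p ≤ P → p ∣ M)
    (f0 f1 : (σ → ℤ) → ℤ) (A B : Bool → σ) (hAB : ∀ s, A s ≠ B s) (α β δ : Bool → ℤ)
    (hf1 : ∀ s (c d : σ → ℤ), (∀ q, q ≠ A s → q ≠ B s → c q = d q) →
      f1 c - f1 d = β s * (c (B s) - d (B s)))
    (hf0 : ∀ s (c d : σ → ℤ), (∀ q, q ≠ A s → q ≠ B s → c q = d q) →
      f0 c - f0 d = α s * (c (A s) - d (A s)) + δ s * (c (B s) - d (B s)))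
    (h0 : α true ≠ 0 ∧ β true ≠ 0)
    (hps : ∀ p : ℕ, p.Prime → ¬ p ∣ M → ∃ s, ¬ (p : ℤ) ∣ α s ∧ ¬ (p : ℤ) ∣ β s)
    (Cb : ℕ) (hb : ∀ (H : ℕ) (c : σ → ℤ), (∀ q, |c q| ≤ H) → |f0 c| ≤ Cb * H ∧ |f1 c| ≤ Cb * H)
    (γ : σ → ℤ) : ∃ H₀ : ℕ, ∀ H : ℕ, H₀ ≤ H → ∀ E : Finset (σ → ℤ),
      (∀ c ∈ E, (∀ q, c q ∈ Icc (-(H : ℤ)) H) ∧ (∀ q, (M : ℤ) ∣ c q - γ q) ∧
        ∃ p : ℕ, p.Prime ∧ ¬ p ∣ M ∧ (p : ℤ) ∣ f0 c ∧ (p : ℤ) ∣ f1 c) →
      ((#E : ℕ) : ℝ) ≤ (2 ^ Fintype.card σ + 1) / P *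
        (((2 * H + 1 : ℕ) : ℝ) / M) ^ Fintype.card σ := by
  classical
  refine ⟨(Cb + 1) * ((2 * (Cb * M) + 1) * (2 * (Cb * M) + 1)) * P * M ^ Fintype.card σ,
    fun H hH E hE => ?_⟩
  have hP0 : (0 : ℝ) < P := by exact_mod_cast hP
  have hM0 : (0 : ℝ) < M := by exact_mod_cast hM
  obtain ⟨N, hN⟩ : ∃ N : ℝ, N = ((2 * H + 1 : ℕ) : ℝ) := ⟨_, rfl⟩
  have hN0 : 0 < N := by rw [hN]; positivity
  let E1 := E.filter (fun c => ∃ p : ℕ, p.Prime ∧ ¬ p ∣ M ∧ M * p ≤ 2 * H + 1 ∧ (p : ℤ) ∣ f0 c ∧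
    (p : ℤ) ∣ f1 c)
  let E2 := E.filter (fun c => ∃ p : ℕ, p.Prime ∧ 2 * H + 1 < M * p ∧ (p : ℤ) ∣ f0 c ∧
    (p : ℤ) ∣ f1 c)
  have hE12 : E ⊆ E1 ∪ E2 := by
    intro c hc
    obtain ⟨h1, h2, p, hp, hpM, h3, h4⟩ := hE c hc
    rw [mem_union]
    by_cases h : M * p ≤ 2 * H + 1
    · exact Or.inl (mem_filter.2 ⟨hc, p, hp, hpM, h, h3, h4⟩)
    · exact Or.inr (mem_filter.2 ⟨hc, p, hp, not_le.1 h, h3, h4⟩)
  have hcard : ((#E : ℕ) : ℝ) ≤ #E1 + #E2 := by
    exact_mod_cast (card_le_card hE12).trans (card_union_le _ _)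
  -- the small primes
  have h1 : ((#E1 : ℕ) : ℝ) ≤ 2 ^ Fintype.card σ / P * (N / M) ^ Fintype.card σ := by
    let F : ℕ → Finset (σ → ℤ) := fun p => E.filter (fun c => p.Prime ∧ ¬ p ∣ M ∧
      M * p ≤ 2 * H + 1 ∧ (p : ℤ) ∣ f0 c ∧ (p : ℤ) ∣ f1 c)
    have h2 : E1 ⊆ (Ioc P (2 * H + 1)).biUnion F := by
      intro c hc
      obtain ⟨hc, p, hp, hpM, h, h3, h4⟩ := mem_filter.1 hc
      rw [mem_biUnion]
      refine ⟨p, mem_Ioc.2 ⟨?_, ?_⟩, mem_filter.2 ⟨hc, hp, hpM, h, h3, h4⟩⟩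
      · by_contra hh
        exact hpM (hPM p hp (not_lt.1 hh))
      · exact (Nat.le_mul_of_pos_left p hM).trans h
    have h3 : ((#E1 : ℕ) : ℝ) ≤ ∑ p ∈ Ioc P (2 * H + 1), ((#(F p) : ℕ) : ℝ) := by
      exact_mod_cast (card_le_card h2).trans card_biUnion_le
    have h4 : ∀ p ∈ Ioc P (2 * H + 1), ((#(F p) : ℕ) : ℝ) ≤
        (2 * (N / M)) ^ Fintype.card σ * ((p : ℝ) ^ 2)⁻¹ := by
      intro p _
      by_cases hp : p.Prime ∧ ¬ p ∣ M ∧ M * p ≤ 2 * H + 1
      · obtain ⟨s, hs1, hs2⟩ := hps p hp.1 hp.2.1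
        rw [hN]
        exact small M p H hM hp.1 hp.2.1 hp.2.2 f0 f1 (A s) (B s) (hAB s) (α s) (β s) (δ s)
          (hf1 s) (hf0 s) hs1 hs2 γ (F p) (fun c hc => by
            obtain ⟨hc, _, _, _, h3, h4⟩ := mem_filter.1 hc
            exact ⟨(hE c hc).1, (hE c hc).2.1, h3, h4⟩)
      · have : F p = ∅ := by
          rw [eq_empty_iff_forall_notMem]
          intro c hc
          obtain ⟨_, h3, h4, h5, _, _⟩ := mem_filter.1 hc
          exact hp ⟨h3, h4, h5⟩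
        rw [this, card_empty, Nat.cast_zero]
        positivity
    have h5 : ∑ p ∈ Ioc P (2 * H + 1), ((p : ℝ) ^ 2)⁻¹ ≤ (P : ℝ)⁻¹ := by
      by_cases h : P ≤ 2 * H + 1
      · have h6 := sum_Ioc_inv_sq_le_sub (α := ℝ) (by omega : P ≠ 0) h
        have h7 : (0 : ℝ) ≤ (((2 * H + 1 : ℕ) : ℝ))⁻¹ := by positivity
        linarith
      · rw [Ioc_eq_empty (by omega), sum_empty]
        positivity
    calc ((#E1 : ℕ) : ℝ) ≤ ∑ p ∈ Ioc P (2 * H + 1), ((#(F p) : ℕ) : ℝ) := h3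
      _ ≤ ∑ p ∈ Ioc P (2 * H + 1), (2 * (N / M)) ^ Fintype.card σ * ((p : ℝ) ^ 2)⁻¹ :=
        sum_le_sum h4
      _ = (2 * (N / M)) ^ Fintype.card σ * ∑ p ∈ Ioc P (2 * H + 1), ((p : ℝ) ^ 2)⁻¹ := by
        rw [mul_sum]
      _ ≤ (2 * (N / M)) ^ Fintype.card σ * (P : ℝ)⁻¹ :=
        mul_le_mul_of_nonneg_left h5 (by positivity)
      _ = 2 ^ Fintype.card σ / P * (N / M) ^ Fintype.card σ := by
        rw [mul_pow]
        field_simp
  -- the large primes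
  have h2 : ((#E2 : ℕ) : ℝ) ≤ 1 / P * (N / M) ^ Fintype.card σ := by
    have h3 := big M H Cb hM f0 f1 (A true) (B true) (hAB true) (α true) (β true) (δ true)
      (hf1 true) (hf0 true) h0.1 h0.2 (hb H) E2 (fun c hc => by
        obtain ⟨hc, h4⟩ := mem_filter.1 hc
        exact ⟨(hE c hc).1, h4⟩)
    rw [← hN] at h3
    obtain ⟨Q, hQ⟩ : ∃ Q : ℕ, Q = (2 * (Cb * M) + 1) * (2 * (Cb * M) + 1) := ⟨_, rfl⟩
    rw [← hQ] at h3 hH
    have h4 : (((Cb * H + 1) * Q : ℕ) : ℝ) * P * M ^ Fintype.card σ ≤ N ^ 2 := by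
      have h5 : (Cb * H + 1) * Q * P * M ^ Fintype.card σ ≤ (2 * H + 1) * (2 * H + 1) := by
        calc (Cb * H + 1) * Q * P * M ^ Fintype.card σ
            ≤ ((Cb + 1) * (2 * H + 1)) * Q * P * M ^ Fintype.card σ := by
              gcongr
              nlinarith
          _ = (2 * H + 1) * ((Cb + 1) * Q * P * M ^ Fintype.card σ) := by ring
          _ ≤ (2 * H + 1) * (2 * H + 1) := by
              gcongr
              omega
      rw [hN, pow_two]
      exact_mod_cast h5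
    have h6 : ((#E2 : ℕ) : ℝ) * (N ^ 2 * (P * M ^ Fintype.card σ)) ≤
        N ^ Fintype.card σ * N ^ 2 := by
      calc ((#E2 : ℕ) : ℝ) * (N ^ 2 * (P * M ^ Fintype.card σ))
          = ((#E2 : ℕ) : ℝ) * N ^ 2 * (P * M ^ Fintype.card σ) := by ring
        _ ≤ ((((Cb * H + 1) * Q : ℕ) : ℝ) * N ^ Fintype.card σ) * (P * M ^ Fintype.card σ) :=
          mul_le_mul_of_nonneg_right h3 (by positivity)
        _ = N ^ Fintype.card σ * ((((Cb * H + 1) * Q : ℕ) : ℝ) * P * M ^ Fintype.card σ) := by ring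
        _ ≤ N ^ Fintype.card σ * N ^ 2 := mul_le_mul_of_nonneg_left h4 (by positivity)
    have e : 1 / (P : ℝ) * (N / M) ^ Fintype.card σ =
        (N ^ Fintype.card σ * N ^ 2) / (N ^ 2 * (P * M ^ Fintype.card σ)) := by
      rw [div_pow]
      field_simp
    rw [e, le_div_iff₀ (by positivity)]
    exact h6
  rw [← hN]
  have e : (2 ^ Fintype.card σ + 1) / (P : ℝ) * (N / M) ^ Fintype.card σ =
      2 ^ Fintype.card σ / P * (N / M) ^ Fintype.card σ + 1 / P * (N / M) ^ Fintype.card σ := by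
    ring
  rw [e]
  linarith

end abs

section forms

variable {n : ℕ}

/-- the coefficients of the forms on the line -/
def cf (b : Fin (n + 1) → ℤ) (i₁ : Fin (n + 1)) (j : ℕ) (m : Fin (n + 1) → ℕ) : ℤ :=
  ((m i₁).choose j : ℤ) * ∏ i, b i ^ (m i - if i = i₁ then j else 0)

lemma lin {D : ℕ} (w : Mon n D → ℤ) (c d : Mon n D → ℤ) (A B : Mon n D) (hAB : A ≠ B)
    (h : ∀ m, m ≠ A → m ≠ B → c m = d m) :
    ∑ m, c m * w m - ∑ m, d m * w m = (c A - d A) * w A + (c B - d B) * w B := by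
  rw [← sum_sub_distrib, Fintype.sum_eq_add A B hAB]
  · ring
  · intro m hm
    rw [h m hm.1 hm.2, sub_self]

lemma bdd {D : ℕ} (w : Mon n D → ℤ) (H : ℕ) (c : Mon n D → ℤ) (h : ∀ m, |c m| ≤ H) :
    |∑ m, c m * w m| ≤ ((∑ m, (w m).natAbs : ℕ) : ℤ) * H := by
  refine (abs_sum_le_sum_abs _ _).trans ?_
  push_cast
  rw [sum_mul]
  refine sum_le_sum fun m _ => ?_
  rw [abs_mul, mul_comm]
  exact mul_le_mul_of_nonneg_left (h m) (abs_nonneg _)

/-- the monomial `X_i ^ (E + 1)` -/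
def monA (i : Fin (n + 1)) (E : ℕ) : Mon n (E + 1) := ⟨Pi.single i (E + 1), by
  rw [Finset.mem_piAntidiag]
  exact ⟨by simp, fun _ _ => mem_univ _⟩⟩

/-- the monomial `X_i ^ E X_{i₁}` -/
def monB (i i₁ : Fin (n + 1)) (E : ℕ) : Mon n (E + 1) :=
  ⟨fun j => (Pi.single i E : Fin (n + 1) → ℕ) j + (Pi.single i₁ 1 : Fin (n + 1) → ℕ) j, by
  rw [Finset.mem_piAntidiag]
  exact ⟨by rw [sum_add_distrib]; simp, fun _ _ => mem_univ _⟩⟩

lemma monAB (i i₁ : Fin (n + 1)) (E : ℕ) (h : i ≠ i₁) : monA i E ≠ monB i i₁ E := by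
  intro hh
  have h1 := congrFun (congrArg Subtype.val hh) i₁
  change (Pi.single i (E + 1) : Fin (n + 1) → ℕ) i₁ =
    (Pi.single i E : Fin (n + 1) → ℕ) i₁ + (Pi.single i₁ 1 : Fin (n + 1) → ℕ) i₁ at h1
  rw [Pi.single_eq_of_ne h.symm, Pi.single_eq_of_ne h.symm, Pi.single_eq_same] at h1
  omega

lemma cf_A0 (b : Fin (n + 1) → ℤ) (i i₁ : Fin (n + 1)) (E : ℕ) :
    cf b i₁ 0 (monA i E).1 = b i ^ (E + 1) := by
  unfold cf
  rw [Nat.choose_zero_right, Nat.cast_one, one_mul, prod_eq_single i]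
  · change b i ^ ((Pi.single i (E + 1) : Fin (n + 1) → ℕ) i - _) = _
    rw [Pi.single_eq_same, ite_self, Nat.sub_zero]
  · intro j _ hj
    change b j ^ ((Pi.single i (E + 1) : Fin (n + 1) → ℕ) j - _) = _
    rw [Pi.single_eq_of_ne hj, Nat.zero_sub, pow_zero]
  · intro h
    exact absurd (mem_univ _) h

lemma cf_A1 (b : Fin (n + 1) → ℤ) (i i₁ : Fin (n + 1)) (E : ℕ) (h : i ≠ i₁) :
    cf b i₁ 1 (monA i E).1 = 0 := by
  unfold cf
  have h1 : (monA i E).1 i₁ = 0 := Pi.single_eq_of_ne h.symm _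
  rw [h1]
  simp

lemma cf_B1 (b : Fin (n + 1) → ℤ) (i i₁ : Fin (n + 1)) (E : ℕ) (h : i ≠ i₁) :
    cf b i₁ 1 (monB i i₁ E).1 = b i ^ E := by
  have h0 : ∀ j, (monB i i₁ E).1 j = (Pi.single i E : Fin (n + 1) → ℕ) j +
    (Pi.single i₁ 1 : Fin (n + 1) → ℕ) j := fun j => rfl
  unfold cf
  have h1 : (monB i i₁ E).1 i₁ = 1 := by
    rw [h0, Pi.single_eq_of_ne h.symm, Pi.single_eq_same]
  rw [h1, Nat.choose_self, Nat.cast_one, one_mul, prod_eq_single i]
  · rw [h0, Pi.single_eq_same, Pi.single_eq_of_ne h, if_neg h, Nat.add_zero, Nat.sub_zero]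
  · intro j _ hj
    by_cases hj1 : j = i₁
    · rw [hj1, h1, if_pos rfl, Nat.sub_self, pow_zero]
    · rw [h0, Pi.single_eq_of_ne hj, Pi.single_eq_of_ne hj1, Nat.add_zero, Nat.zero_sub, pow_zero]
  · intro h
    exact absurd (mem_univ _) h

lemma line_cf {E : ℕ} (b : Fin (n + 1) → ℤ) (i₁ : Fin (n + 1)) (c : Mon n (E + 1) → ℤ)
    (j : Fin (E + 2)) : line b i₁ c j = ∑ m : Mon n (E + 1), c m * cf b i₁ j m.1 := rfl

end forms

theorem tail_ : S_TAIL := by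
  intro n ι _ _ e
  classical
  let σ := (k : ι) × Mon n (e k + 1)
  have hσ : Fintype.card σ = sz n e := Fintype.card_sigma
  refine ⟨Fintype.card ι * (2 ^ sz n e + 1), by positivity, ?_⟩
  intro P M hP hM hPM b i₀ i₁ i₂ h01 h21 hb0 hb2 hbp γ
  have key : ∀ k : ι, ∃ H₀ : ℕ, ∀ H : ℕ, H₀ ≤ H → ∀ E : Finset (σ → ℤ),
      (∀ c ∈ E, (∀ q, c q ∈ Icc (-(H : ℤ)) H) ∧ (∀ q : σ, (M : ℤ) ∣ c q - γ q.1 q.2) ∧
        ∃ p : ℕ, p.Prime ∧ ¬ p ∣ M ∧ (p : ℤ) ∣ line b i₁ (fun m => c ⟨k, m⟩) 0 ∧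
          (p : ℤ) ∣ line b i₁ (fun m => c ⟨k, m⟩) 1) →
      ((#E : ℕ) : ℝ) ≤ (2 ^ Fintype.card σ + 1) / P *
        (((2 * H + 1 : ℕ) : ℝ) / M) ^ Fintype.card σ := by
    intro k
    have hsig : ∀ (m m' : Mon n (e k + 1)), m ≠ m' → (⟨k, m⟩ : σ) ≠ ⟨k, m'⟩ := by
      intro m m' hm h
      exact hm (by simpa using h)
    have hs1 : ∀ s : Bool, (if s then i₀ else i₂) ≠ i₁ := by
      intro s
      cases s
      · exact h21
      · exact h01
    refine absT (σ := σ) P M hP hM hPM (fun c => line b i₁ (fun m => c ⟨k, m⟩) 0)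
      (fun c => line b i₁ (fun m => c ⟨k, m⟩) 1)
      (fun s => ⟨k, monA (if s then i₀ else i₂) (e k)⟩)
      (fun s => ⟨k, monB (if s then i₀ else i₂) i₁ (e k)⟩)
      (fun s => hsig _ _ (monAB _ _ _ (hs1 s)))
      (fun s => b (if s then i₀ else i₂) ^ (e k + 1)) (fun s => b (if s then i₀ else i₂) ^ (e k))
      (fun s => cf b i₁ 0 (monB (if s then i₀ else i₂) i₁ (e k)).1) ?_ ?_ ?_ ?_
      (∑ m : Mon n (e k + 1), (cf b i₁ 0 m.1).natAbs +
        ∑ m : Mon n (e k + 1), (cf b i₁ 1 m.1).natAbs) ?_ (fun q => γ q.1 q.2)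
    · intro s c d hcd
      have h1 := lin (fun m => cf b i₁ 1 m.1) (fun m => c ⟨k, m⟩) (fun m => d ⟨k, m⟩)
        (monA (if s then i₀ else i₂) (e k)) (monB (if s then i₀ else i₂) i₁ (e k))
        (monAB _ _ _ (hs1 s)) (fun m hm1 hm2 => hcd _ (hsig _ _ hm1) (hsig _ _ hm2))
      beta_reduce at h1
      rw [cf_A1 _ _ _ _ (hs1 s), cf_B1 _ _ _ _ (hs1 s), mul_zero, zero_add, mul_comm] at h1
      exact h1
    · intro s c d hcd
      have h1 := lin (fun m => cf b i₁ 0 m.1) (fun m => c ⟨k, m⟩) (fun m => d ⟨k, m⟩)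
        (monA (if s then i₀ else i₂) (e k)) (monB (if s then i₀ else i₂) i₁ (e k))
        (monAB _ _ _ (hs1 s)) (fun m hm1 hm2 => hcd _ (hsig _ _ hm1) (hsig _ _ hm2))
      beta_reduce at h1
      rw [cf_A0, mul_comm, mul_comm (c _ - d _) (cf _ _ _ _)] at h1
      exact h1
    · exact ⟨pow_ne_zero _ hb0, pow_ne_zero _ hb0⟩
    · intro p hp hpM
      have hpp : Prime (p : ℤ) := Nat.prime_iff_prime_int.1 hp
      by_cases h : (p : ℤ) ∣ b i₀
      · have h2 : ¬ (p : ℤ) ∣ b i₂ := fun h2 => hpM (hbp p hp h h2)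
        exact ⟨false, fun h3 => h2 (hpp.dvd_of_dvd_pow h3), fun h3 => h2 (hpp.dvd_of_dvd_pow h3)⟩
      · exact ⟨true, fun h3 => h (hpp.dvd_of_dvd_pow h3), fun h3 => h (hpp.dvd_of_dvd_pow h3)⟩
    · intro H c hc
      have h1 := bdd (fun m : Mon n (e k + 1) => cf b i₁ 0 m.1) H (fun m => c ⟨k, m⟩)
        (fun m => hc _)
      have h2 := bdd (fun m : Mon n (e k + 1) => cf b i₁ 1 m.1) H (fun m => c ⟨k, m⟩)
        (fun m => hc _)
      refine ⟨h1.trans ?_, h2.trans ?_⟩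
      · apply mul_le_mul_of_nonneg_right _ (Int.natCast_nonneg _)
        exact_mod_cast Nat.le_add_right _ _
      · apply mul_le_mul_of_nonneg_right _ (Int.natCast_nonneg _)
        exact_mod_cast Nat.le_add_left _ _
  choose H₀ hH₀ using key
  refine ⟨∑ k, H₀ k, fun H hH => ?_⟩
  let X : ι → Finset ((k : ι) → Mon n (e k + 1) → ℤ) := fun k => (bx n e H).filter (fun c =>
    (∀ k m, (M : ℤ) ∣ c k m - γ k m) ∧
      ∃ p : ℕ, p.Prime ∧ ¬ p ∣ M ∧ ∀ j, (p : ℤ) ∣ line b i₁ (c k) j)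
  let Φ : ((k : ι) → Mon n (e k + 1) → ℤ) → (σ → ℤ) := fun c q => c q.1 q.2
  have hΦ : Function.Injective Φ := by
    intro c d h
    funext k m
    exact congrFun h ⟨k, m⟩
  have hX : ∀ k, ((#(X k) : ℕ) : ℝ) ≤ (2 ^ sz n e + 1) / P *
      (((2 * H + 1 : ℕ) : ℝ) / M) ^ sz n e := by
    intro k
    have h1 := hH₀ k H ((single_le_sum (f := H₀) (fun _ _ => Nat.zero_le _) (mem_univ k)).trans hH)
      ((X k).image Φ) (by
        intro c hc
        obtain ⟨c', hc', rfl⟩ := mem_image.1 hc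
        obtain ⟨h2, h3, p, hp, hpM, h4⟩ := mem_filter.1 hc'
        unfold bx at h2
        refine ⟨fun q => ?_, fun q => h3 q.1 q.2, p, hp, hpM, h4 0, h4 1⟩
        exact Fintype.mem_piFinset.1 (Fintype.mem_piFinset.1 h2 q.1) q.2)
    rw [card_image_of_injective _ hΦ, hσ] at h1
    exact h1
  have hsub : (bx n e H).filter (fun c => (∀ k m, (M : ℤ) ∣ c k m - γ k m) ∧
      ∃ p : ℕ, p.Prime ∧ ¬ p ∣ M ∧ ∃ k, ∀ j, (p : ℤ) ∣ line b i₁ (c k) j) ⊆ univ.biUnion X := by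
    intro c hc
    obtain ⟨h2, h3, p, hp, hpM, k, h4⟩ := mem_filter.1 hc
    exact mem_biUnion.2 ⟨k, mem_univ _, mem_filter.2 ⟨h2, h3, p, hp, hpM, h4⟩⟩
  have h5 := (card_le_card hsub).trans card_biUnion_le
  calc _ ≤ ((∑ k, #(X k) : ℕ) : ℝ) := by exact_mod_cast h5
    _ = ∑ k, ((#(X k) : ℕ) : ℝ) := by push_cast; rfl
    _ ≤ ∑ k : ι, (2 ^ sz n e + 1) / P * (((2 * H + 1 : ℕ) : ℝ) / M) ^ sz n e :=
      sum_le_sum fun k _ => hX k
    _ = Fintype.card ι * (2 ^ sz n e + 1) / P * (((2 * H + 1 : ℕ) : ℝ) / M) ^ sz n e := by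
      rw [sum_const, card_univ, nsmul_eq_mul]
      ring

end Pool.Agent.N301.PN
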